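import Mathlib

set_option autoImplicit false
open scoped ENNReal
noncomputable section
namespace Pool.Agent.N821.Stech

abbrev L1 := lp (fun _ : ℕ => ℝ) 1
abbrev L2 := lp (fun _ : ℕ => ℝ) 2
abbrev W := WithLp 2 (L1 × L2)

def Esub : Submodule ℝ W where
  carrier := {w | ∀ n : ℕ, w.snd n = w.fst n / ((n : ℝ) + 1)}
  add_mem' := by
    intro a b ha hb n
    have h1 := ha n
    have h2 := hb n
    simp only [WithLp.add_snd, WithLp.add_fst, lp.coeFn_add, Pi.add_apply]
    rw [h1, h2]; ring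
  zero_mem' := by
    intro n
    simp
  smul_mem' := by
    intro c x hx n
    have h1 := hx n
    simp only [WithLp.smul_snd, WithLp.smul_fst, lp.coeFn_smul, Pi.smul_apply, smul_eq_mul]
    rw [h1]; ring

lemma mem_Esub (w : W) : w ∈ Esub ↔ ∀ n : ℕ, w.snd n = w.fst n / ((n : ℝ) + 1) := Iff.rfl

lemma norm_sq (w : W) : ‖w‖ ^ 2 = ‖w.fst‖ ^ 2 + ‖w.snd‖ ^ 2 := by
  exact WithLp.prod_norm_sq_eq_of_L2 w

lemma continuous_coord1 (n : ℕ) : Continuous (fun w : W => (w.fst : ∀ _ : ℕ, ℝ) n) := by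
  have h : Continuous (fun x : L1 => (x : ∀ _ : ℕ, ℝ) n) := by
    refine continuous_iff_continuousAt.2 (fun x => ?_)
    refine Metric.continuousAt_iff.2 (fun ε hε => ⟨ε, hε, fun y hy => ?_⟩)
    rw [dist_eq_norm] at hy ⊢
    refine lt_of_le_of_lt ?_ hy
    have := lp.norm_apply_le_norm (p := 1) one_ne_zero (y - x) n
    simpa using this
  exact h.comp (by fun_prop)

lemma continuous_coord2 (n : ℕ) : Continuous (fun w : W => (w.snd : ∀ _ : ℕ, ℝ) n) := by
  have h : Continuous (fun x : L2 => (x : ∀ _ : ℕ, ℝ) n) := by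
    refine continuous_iff_continuousAt.2 (fun x => ?_)
    refine Metric.continuousAt_iff.2 (fun ε hε => ⟨ε, hε, fun y hy => ?_⟩)
    rw [dist_eq_norm] at hy ⊢
    refine lt_of_le_of_lt ?_ hy
    have := lp.norm_apply_le_norm (p := 2) two_ne_zero (y - x) n
    simpa using this
  exact h.comp (by fun_prop)

lemma isClosed_Esub : IsClosed (Esub : Set W) := by
  have : (Esub : Set W) = ⋂ n : ℕ, {w : W | w.snd n = w.fst n / ((n : ℝ) + 1)} := by
    ext w; simp only [SetLike.mem_coe, mem_Esub, Set.mem_iInter, Set.mem_ofPred_eq]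
  rw [this]
  refine isClosed_iInter (fun n => isClosed_eq (continuous_coord2 n) ?_)
  exact (continuous_coord1 n).div_const _

abbrev E := Esub

instance : CompleteSpace E := isClosed_Esub.completeSpace_coe

/-! the ℓ¹ norm -/

lemma summable_L1 (x : L1) : Summable (fun n => |x n|) := by
  have h := (lp.memℓp x).summable (by simp)
  simpa using h

lemma norm_L1 (x : L1) : ‖x‖ = ∑' n, |x n| := by
  have h := lp.norm_eq_tsum_rpow (p := 1) (by simp) x
  simpa using h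

/-- the weights of the functional -/
def c (n : ℕ) : ℝ := ((n : ℝ) + 1) / ((n : ℝ) + 2)

lemma c_pos (n : ℕ) : 0 < c n := by unfold c; positivity
lemma c_lt (n : ℕ) : c n < 1 := by
  unfold c
  rw [div_lt_one (by positivity)]
  linarith

lemma summable_cx (x : L1) : Summable (fun n => c n * x n) := by
  refine Summable.of_norm_bounded (summable_L1 x) (fun n => ?_)
  rw [Real.norm_eq_abs, abs_mul, abs_of_pos (c_pos n)]
  exact mul_le_of_le_one_left (abs_nonneg _) (c_lt n).le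

def gl : L1 →ₗ[ℝ] ℝ where
  toFun x := ∑' n, c n * x n
  map_add' x y := by
    rw [← (summable_cx x).tsum_add (summable_cx y)]
    refine tsum_congr (fun n => ?_)
    simp only [lp.coeFn_add, Pi.add_apply]; ring
  map_smul' a x := by
    simp only [lp.coeFn_smul, Pi.smul_apply, smul_eq_mul, RingHom.id_apply]
    rw [← tsum_mul_left]
    refine tsum_congr (fun n => ?_)
    ring

lemma abs_gl_le (x : L1) : |gl x| ≤ ∑' n, c n * |x n| := by
  have h1 : Summable (fun n => |c n * x n|) := (summable_cx x).abs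
  have h2 : |∑' n, c n * x n| ≤ ∑' n, |c n * x n| := by
    have := norm_tsum_le_tsum_norm (f := fun n => c n * x n) (by simpa using h1)
    simpa using this
  refine h2.trans (le_of_eq (tsum_congr (fun n => ?_)))
  rw [abs_mul, abs_of_pos (c_pos n)]

lemma abs_gl_le_norm (x : L1) : |gl x| ≤ ‖x‖ := by
  refine (abs_gl_le x).trans ?_
  rw [norm_L1]
  refine Summable.tsum_le_tsum (fun n => ?_) ?_ (summable_L1 x)
  · exact mul_le_of_le_one_left (abs_nonneg _) (c_lt n).le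
  · refine (summable_cx x).abs.congr (fun n => ?_)
    rw [abs_mul, abs_of_pos (c_pos n)]

lemma abs_gl_lt_norm (x : L1) (hx : x ≠ 0) : |gl x| < ‖x‖ := by
  refine (abs_gl_le x).trans_lt ?_
  rw [norm_L1]
  obtain ⟨n, hn⟩ : ∃ n, x n ≠ 0 := by
    by_contra h
    push Not at h
    exact hx (lp.ext (funext h))
  refine Summable.tsum_lt_tsum (i := n) (fun m => ?_) ?_ ?_ (summable_L1 x)
  · exact mul_le_of_le_one_left (abs_nonneg _) (c_lt m).le
  · exact mul_lt_of_lt_one_left (abs_pos.2 hn) (c_lt n)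
  · refine (summable_cx x).abs.congr (fun n => ?_)
    rw [abs_mul, abs_of_pos (c_pos n)]

def g : L1 →L[ℝ] ℝ := gl.mkContinuous 1 (fun x => by
  rw [one_mul, Real.norm_eq_abs]; exact abs_gl_le_norm x)

lemma norm_fst_le (w : W) : ‖w.fst‖ ≤ ‖w‖ := by
  have h := norm_sq w
  nlinarith [norm_nonneg w, norm_nonneg w.fst, sq_nonneg ‖w.snd‖, norm_nonneg w.snd]

lemma norm_snd_le (w : W) : ‖w.snd‖ ≤ ‖w‖ := by
  have h := norm_sq w
  nlinarith [norm_nonneg w, norm_nonneg w.fst, sq_nonneg ‖w.fst‖, norm_nonneg w.snd]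

def fl : E →ₗ[ℝ] ℝ where
  toFun w := gl (w : W).fst
  map_add' x y := by simp
  map_smul' a x := by simp

def f : E →L[ℝ] ℝ := fl.mkContinuous 1 (fun w => by
  rw [one_mul, Real.norm_eq_abs]
  exact (abs_gl_le_norm _).trans (norm_fst_le _))

lemma f_apply (w : E) : f w = gl (w : W).fst := rfl

lemma abs_f_lt (w : E) (hw : w ≠ 0) : |f w| < ‖w‖ := by
  rw [f_apply]
  have h1 : (w : W).fst ≠ 0 := by
    intro h
    apply hw
    have h2 := w.2
    rw [mem_Esub] at h2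
    have h3 : (w : W).snd = 0 := by
      apply lp.ext
      funext n
      rw [h2 n, h]; simp
    apply Subtype.ext
    have h4 := norm_sq (w : W)
    rw [h, h3] at h4
    simpa using h4
  exact (abs_gl_lt_norm _ h1).trans_le (norm_fst_le _)

/-- unit vectors of `ℓ¹` -/
def s1 (n : ℕ) : L1 := lp.single (E := fun _ : ℕ => ℝ) 1 n (1 : ℝ)
/-- scaled unit vectors of `ℓ²` -/
def s2 (n : ℕ) : L2 := lp.single (E := fun _ : ℕ => ℝ) 2 n (1 / ((n : ℝ) + 1))

lemma s1_apply (n m : ℕ) : (s1 n : ∀ _ : ℕ, ℝ) m = if m = n then 1 else 0 := by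
  unfold s1
  by_cases h : m = n
  · subst h; simp
  · simp [h]

lemma s2_apply (n m : ℕ) : (s2 n : ∀ _ : ℕ, ℝ) m = if m = n then 1 / ((n : ℝ) + 1) else 0 := by
  unfold s2
  by_cases h : m = n
  · subst h; simp
  · simp [h]

lemma norm_s1 (n : ℕ) : ‖s1 n‖ = 1 := by
  unfold s1
  rw [lp.norm_single (by simp)]; simp

lemma norm_s2 (n : ℕ) : ‖s2 n‖ = 1 / ((n : ℝ) + 1) := by
  unfold s2
  rw [lp.norm_single (by simp), Real.norm_eq_abs, abs_of_pos (by positivity)]

/-- the unit vectors in `E` -/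
def e (n : ℕ) : E := ⟨WithLp.toLp 2 (s1 n, s2 n), by
  rw [mem_Esub]
  intro m
  show (s2 n : ∀ _ : ℕ, ℝ) m = (s1 n : ∀ _ : ℕ, ℝ) m / ((m : ℝ) + 1)
  rw [s1_apply, s2_apply]
  by_cases h : m = n
  · subst h; simp
  · simp [h]⟩

lemma norm_e_sq (n : ℕ) : ‖e n‖ ^ 2 = 1 + (1 / ((n : ℝ) + 1)) ^ 2 := by
  have h := norm_sq (e n : W)
  have h1 : ‖(e n : W).fst‖ = 1 := norm_s1 n
  have h2 : ‖(e n : W).snd‖ = 1 / ((n : ℝ) + 1) := norm_s2 n
  rw [h1, h2] at h
  have h3 : ‖e n‖ = ‖(e n : W)‖ := rfl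
  rw [h3, h]; ring

lemma f_e (n : ℕ) : f (e n) = c n := by
  rw [f_apply]
  show ∑' m, c m * (s1 n : ∀ _ : ℕ, ℝ) m = c n
  rw [tsum_eq_single n]
  · rw [s1_apply]; simp
  · intro m hm
    rw [s1_apply]; simp [hm]

lemma norm_E_sq (w : E) : ‖w‖ ^ 2 = ‖(w : W).fst‖ ^ 2 + ‖(w : W).snd‖ ^ 2 := norm_sq (w : W)

/-- coordinates of the difference are controlled by the second component -/
lemma coord_le (w : E) (n : ℕ) : |(w : W).fst n| ≤ ((n : ℝ) + 1) * ‖(w : W).snd‖ := by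
  have h := w.2
  rw [mem_Esub] at h
  have h1 := lp.norm_apply_le_norm (p := 2) two_ne_zero (w : W).snd n
  rw [h n, Real.norm_eq_abs, abs_div, abs_of_pos (show (0:ℝ) < (n : ℝ) + 1 by positivity),
    div_le_iff₀ (by positivity)] at h1
  linarith

/-- Riesz-Scheffe estimate in `ℓ¹` -/
lemma scheffe (x y : L1) (F : Finset ℕ) (η : ℝ) (hη : ‖x‖ - ∑ n ∈ F, |x n| ≤ η) :
    ‖x - y‖ ≤ 2 * ∑ n ∈ F, |x n - y n| + 2 * η + (‖y‖ - ‖x‖) := by
  have hx := summable_L1 x
  have hy := summable_L1 y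
  have hxy := summable_L1 (x - y)
  have e1 : ∑ n ∈ F, |(x - y : L1) n| + ∑' n : {n // n ∉ F}, |(x - y : L1) n| = ‖x - y‖ := by
    rw [norm_L1]; exact hxy.sum_add_tsum_subtype_compl F
  have e2 : ∑ n ∈ F, |x n| + ∑' n : {n // n ∉ F}, |x n| = ‖x‖ := by
    rw [norm_L1]; exact hx.sum_add_tsum_subtype_compl F
  have e3 : ∑ n ∈ F, |y n| + ∑' n : {n // n ∉ F}, |y n| = ‖y‖ := by
    rw [norm_L1]; exact hy.sum_add_tsum_subtype_compl F
  have h1 : ∑' n : {n // n ∉ F}, |(x - y : L1) n| ≤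
      ∑' n : {n // n ∉ F}, |x n| + ∑' n : {n // n ∉ F}, |y n| := by
    have hx' : Summable (fun n : {n // n ∉ F} => |x n|) := hx.subtype _
    have hy' : Summable (fun n : {n // n ∉ F} => |y n|) := hy.subtype _
    have hxy' : Summable (fun n : {n // n ∉ F} => |(x - y : L1) n|) := hxy.subtype _
    rw [← hx'.tsum_add hy']
    refine Summable.tsum_le_tsum (fun n => ?_) hxy' (hx'.add hy')
    simp only [lp.coeFn_sub, Pi.sub_apply]
    exact abs_sub _ _
  have h2 : ∑ n ∈ F, |x n| ≤ ∑ n ∈ F, |y n| + ∑ n ∈ F, |x n - y n| := by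
    rw [← Finset.sum_add_distrib]
    refine Finset.sum_le_sum (fun n _ => ?_)
    have := abs_sub_abs_le_abs_sub (x n) (y n)
    linarith
  have h3 : ∑ n ∈ F, |(x - y : L1) n| = ∑ n ∈ F, |x n - y n| := by
    refine Finset.sum_congr rfl (fun n _ => ?_)
    simp only [lp.coeFn_sub, Pi.sub_apply]
  linarith


/-- the basic convexity inequality -/
lemma basic (x y : E) : (‖(x : W).fst‖ - ‖(y : W).fst‖) ^ 2 + ‖(x : W).snd - (y : W).snd‖ ^ 2 ≤
    2 * ‖x‖ ^ 2 + 2 * ‖y‖ ^ 2 - ‖x + y‖ ^ 2 := by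
  have h1 := norm_E_sq x
  have h2 := norm_E_sq y
  have h3 := norm_E_sq (x + y)
  have h4 : ((x + y : E) : W).fst = (x : W).fst + (y : W).fst := rfl
  have h5 : ((x + y : E) : W).snd = (x : W).snd + (y : W).snd := rfl
  rw [h4, h5] at h3
  have h6 := parallelogram_law_with_norm ℝ (x : W).snd (y : W).snd
  have h7 : ‖(x : W).fst + (y : W).fst‖ ^ 2 ≤ (‖(x : W).fst‖ + ‖(y : W).fst‖) ^ 2 := by
    gcongr
    exact norm_add_le _ _
  nlinarith

lemma luc (x : E) (hx : ‖x‖ = 1) (ε : ℝ) (hε : 0 < ε) : ∃ δ : ℝ, 0 < δ ∧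
    ∀ y : E, ‖y‖ = 1 → ε ≤ ‖x - y‖ → ‖x + y‖ ≤ 2 - 2 * δ := by
  classical
  -- choose F
  have hs := (summable_L1 (x : W).fst).hasSum
  rw [← norm_L1] at hs
  obtain ⟨F, hF⟩ : ∃ F : Finset ℕ, ‖(x : W).fst‖ - ∑ n ∈ F, |(x : W).fst n| ≤ ε / 8 := by
    have h := (tendsto_order.1 hs).1 (‖(x : W).fst‖ - ε / 8) (by linarith)
    obtain ⟨F, hF⟩ := h.exists
    exact ⟨F, by linarith⟩
  set M : ℝ := ∑ n ∈ F, ((n : ℝ) + 1) with hM
  have hM0 : 0 ≤ M := Finset.sum_nonneg (fun n _ => by positivity)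
  set τ : ℝ := min (1 / 2) (ε / (16 * (M + 1))) with hτ
  have hτ0 : 0 < τ := by
    rw [hτ]; exact lt_min (by norm_num) (by positivity)
  have hτM : M * τ ≤ ε / 16 := by
    have h1 : τ ≤ ε / (16 * (M + 1)) := min_le_right _ _
    calc M * τ ≤ M * (ε / (16 * (M + 1))) := by gcongr
      _ = (ε / 16) * (M / (M + 1)) := by field_simp
      _ ≤ (ε / 16) * 1 := by
        gcongr
        rw [div_le_one (by positivity)]; linarith
      _ = ε / 16 := by ring
  have hτε : τ ≤ ε / 16 := by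
    have h1 : τ ≤ ε / (16 * (M + 1)) := min_le_right _ _
    refine h1.trans ?_
    gcongr
    linarith
  refine ⟨τ ^ 2 / 8, by positivity, fun y hy hxy => ?_⟩
  by_contra hcon
  push Not at hcon
  have hτ1 : τ ≤ 1 / 2 := min_le_left _ _
  have hb := basic x y
  rw [hx, hy] at hb
  have h1 : (‖(x : W).fst‖ - ‖(y : W).fst‖) ^ 2 + ‖(x : W).snd - (y : W).snd‖ ^ 2 ≤ τ ^ 2 := by
    have h2 : (2 - 2 * (τ ^ 2 / 8)) ^ 2 ≤ ‖x + y‖ ^ 2 := by
      have : 0 ≤ 2 - 2 * (τ ^ 2 / 8) := by nlinarith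
      gcongr
    nlinarith [sq_nonneg (τ ^ 2)]
  have h2 : ‖(x : W).snd - (y : W).snd‖ ≤ τ := by
    nlinarith [norm_nonneg ((x : W).snd - (y : W).snd), sq_nonneg (‖(x : W).fst‖ - ‖(y : W).fst‖)]
  have h3 : ‖(y : W).fst‖ - ‖(x : W).fst‖ ≤ τ := by
    nlinarith [sq_nonneg (‖(x : W).snd - (y : W).snd‖), sq_nonneg (‖(x : W).fst‖ - ‖(y : W).fst‖ + τ)]
  have h4 := scheffe (x : W).fst (y : W).fst F (ε / 8) hF
  have h5 : ∑ n ∈ F, |(x : W).fst n - (y : W).fst n| ≤ M * τ := by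
    rw [hM, Finset.sum_mul]
    refine Finset.sum_le_sum (fun n _ => ?_)
    have h6 := coord_le (x - y) n
    have h7 : ((x - y : E) : W).fst = (x : W).fst - (y : W).fst := rfl
    have h8 : ((x - y : E) : W).snd = (x : W).snd - (y : W).snd := rfl
    rw [h7, h8] at h6
    simp only [lp.coeFn_sub, Pi.sub_apply] at h6
    refine h6.trans ?_
    gcongr
  have h6 : ‖(x : W).fst - (y : W).fst‖ ≤ ε / 8 + ε / 4 + ε / 16 := by linarith
  have h7 := norm_E_sq (x - y)
  have h8 : ((x - y : E) : W).fst = (x : W).fst - (y : W).fst := rfl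
  have h9 : ((x - y : E) : W).snd = (x : W).snd - (y : W).snd := rfl
  rw [h8, h9] at h7
  nlinarith [norm_nonneg ((x : W).snd - (y : W).snd), norm_nonneg ((x : W).fst - (y : W).fst), norm_nonneg (x - y)]

/-- the hyperplane -/
def G : Set E := {w | f w = 0}

lemma isClosed_G : IsClosed G := isClosed_eq f.continuous continuous_const

lemma zero_mem_G : (0 : E) ∈ G := by simp [G]

lemma no_nearest (x y : E) (hx : x ∉ G) (hy : y ∈ G) (h : dist x y = Metric.infDist x G) : False := by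
  have hy0 : f y = 0 := hy
  set u := x - y with hu
  have hfu : f u = f x := by rw [hu, map_sub, hy0, sub_zero]
  have hu0 : u ≠ 0 := by
    intro h0
    apply hx
    show f x = 0
    rw [← hfu, h0, map_zero]
  have hlt := abs_f_lt u hu0
  have hfu0 : 0 < |f u| := by
    rw [hfu]; exact abs_pos.2 hx
  -- choose n
  have hlim : Filter.Tendsto (fun n : ℕ => |f u| ^ 2 * ((1 + (1 / ((n : ℝ) + 1)) ^ 2) / (c n) ^ 2)) Filter.atTop
      (nhds (|f u| ^ 2 * ((1 + 0 ^ 2) / 1 ^ 2))) := by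
    have h1 : Filter.Tendsto (fun n : ℕ => 1 / ((n : ℝ) + 1)) Filter.atTop (nhds 0) :=
      tendsto_one_div_add_atTop_nhds_zero_nat
    have h2 : Filter.Tendsto c Filter.atTop (nhds 1) := by
      have h3 : Filter.Tendsto (fun n : ℕ => 1 / ((n : ℝ) + 1 + 1)) Filter.atTop (nhds 0) := by
        have := h1.comp (Filter.tendsto_add_atTop_nat 1)
        refine this.congr (fun n => ?_)
        simp
      have h4 : Filter.Tendsto (fun n : ℕ => 1 - 1 / ((n : ℝ) + 1 + 1)) Filter.atTop (nhds (1 - 0)) :=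
        tendsto_const_nhds.sub h3
      rw [sub_zero] at h4
      refine h4.congr (fun n => ?_)
      unfold c
      have : (n : ℝ) + 2 ≠ 0 := by positivity
      have h' : (n : ℝ) + 1 + 1 ≠ 0 := by positivity
      field_simp
      ring
    refine tendsto_const_nhds.mul ?_
    refine (tendsto_const_nhds.add (h1.pow 2)).div (h2.pow 2) (by norm_num)
  have hsq : |f u| ^ 2 * ((1 + 0 ^ 2) / 1 ^ 2) < ‖u‖ ^ 2 := by
    have : |f u| ^ 2 < ‖u‖ ^ 2 := by gcongr
    simpa using this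
  obtain ⟨n, hn⟩ := ((tendsto_order.1 hlim).2 _ hsq).exists
  set w : E := (f u / c n) • e n with hw
  have hfw : f w = f u := by
    rw [hw, map_smul, f_e, smul_eq_mul, div_mul_cancel₀ _ (c_pos n).ne']
  have hnw : ‖w‖ ^ 2 < ‖u‖ ^ 2 := by
    rw [hw, norm_smul, mul_pow, norm_e_sq, Real.norm_eq_abs, abs_div, abs_of_pos (c_pos n)]
    have : (|f u| / c n) ^ 2 * (1 + (1 / ((n : ℝ) + 1)) ^ 2) = |f u| ^ 2 * ((1 + (1 / ((n : ℝ) + 1)) ^ 2) / (c n) ^ 2) := by
      field_simp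
    rw [this]; exact hn
  have hmem : x - w ∈ G := by
    show f (x - w) = 0
    rw [map_sub, hfw, hfu, sub_self]
  have h1 : Metric.infDist x G ≤ dist x (x - w) := Metric.infDist_le_dist_of_mem hmem
  have h2 : dist x (x - w) = ‖w‖ := by rw [dist_eq_norm]; congr 1; abel
  rw [h2, ← h, dist_eq_norm, ← hu] at h1
  have h3 : ‖u‖ ^ 2 ≤ ‖w‖ ^ 2 := by gcongr
  linarith

lemma meagre : IsMeagre {x : E | ∃! y : E, y ∈ G ∧ dist x y = Metric.infDist x G} := by
  have hG : IsMeagre G := by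
    refine IsNowhereDense.isMeagre ?_
    rw [isClosed_G.isNowhereDense_iff]
    by_contra hne
    have hne' : (interior G).Nonempty := Set.nonempty_iff_ne_empty.2 hne
    obtain ⟨z, hz⟩ := hne'
    have hz2 : G ∈ nhds z := mem_interior_iff_mem_nhds.1 hz
    have hc : Continuous (fun t : ℝ => z + t • e 0) := by fun_prop
    have hc0 : (fun t : ℝ => z + t • e 0) ⁻¹' G ∈ nhds (0 : ℝ) := by
      apply hc.continuousAt
      simpa using hz2
    obtain ⟨r, hr, hball⟩ := Metric.mem_nhds_iff.1 hc0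
    have h1 : (r / 2) ∈ Metric.ball (0 : ℝ) r := by
      simp only [Metric.mem_ball, dist_zero_right, Real.norm_eq_abs]
      rw [abs_of_pos (by positivity)]; linarith
    have h2 : f (z + (r / 2) • e 0) = 0 := hball h1
    have h3 : f z = 0 := (interior_subset hz : z ∈ G)
    rw [map_add, map_smul, f_e, h3, zero_add, smul_eq_mul] at h2
    have := c_pos 0
    have : 0 < r / 2 * c 0 := by positivity
    linarith
  refine hG.mono (fun x hx => ?_)
  obtain ⟨y, ⟨hy, hd⟩, _⟩ := hx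
  by_contra hxG
  exact no_nearest x y hxG hy hd

end Pool.Agent.N821.Stech
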